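import Pool.Agent.J4.H18.U.Final

/-!
# One universal cycle for all cohomology theories and all divisors

Let `X` be a smooth projective variety of dimension `n` over an algebraically closed field of any
characteristic, and suppose that for ONE Weil cohomology theory `W` (for instance the `ℓ`-adic
theory for one prime `ℓ`) and ONE divisor `D₀` the inverses of
`D₀ ^ (n - l) : H^l(X) → H^(2n - l)(X)` are algebraic for `l ≤ i`. Let `D 1, ..., D r` be any
divisors on `X` (for example a basis of the Néron-Severi group with rational coefficients), and
`D_t = ∑ t j D j` for `t` in `ℚ ^ r`.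

Then there are finitely many cycles `z 1, ..., z N` of codimension `i` on `X × X`, a homogeneous
polynomial `q` of degree `(n - i) b_i` and homogeneous polynomials `p j` of degree
`(n - i) (b_i - 1)` in `t 1, ..., t r`, with rational coefficients, such that for ALL Weil cohomology
theories with the same Betti numbers of `X` in the degrees `≤ i` (for example for the `ℓ`-adic
theories for all primes `ℓ`) and ALL `t`:

* the map `D_t ^ (n - i) : H^i(X) → H^(2n - i)(X)` is bijective if and only if `q(t) ≠ 0`;
* in this case its inverse is induced by the cycle `∑ (p j)(t) / q(t) • z j`, which acts as zero on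
  the cohomology in the other degrees.

So the hard Lefschetz locus in degree `i` in the space of divisors is the same for all theories, and
ONE cycle with coefficients in the field of rational functions `ℚ(t)` inverts the Lefschetz
operators of all divisors for all theories.
-/

open Pool.Agent.H914 Pool.Agent.W537 Pool.Agent.J4.H18.U
  Pool.Agent.H914.VarClass Pool.Agent.H914.VarClass.Obj

universe u v

namespace Pool.Agent.J4.H26.Attic.UniversalCycle

/-- **One universal cycle for all theories and all divisors.** -/
theorem main {k : Type u} [Field k] {𝒱 : VarClass k} {ops : CycleOps 𝒱}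
    (W : WeilCohomology.{u, v} ops) (X : 𝒱.Obj) (D₀ : X.Cycles) (hD₀ : X.IsCyc 1 D₀) (i : ℕ)
    (hi : i ≤ X.dim) (hB : ∀ l ≤ i, ∃ z, InvertsLefschetz W X D₀ l z) (r : ℕ)
    (D : Fin r → X.Cycles) (hD : ∀ j, X.IsCyc 1 (D j)) :
    ∃ (N : ℕ) (z : Fin N → (X.prod X).Cycles) (p : Fin N → MvPolynomial (Fin r) ℚ)
      (q : MvPolynomial (Fin r) ℚ), (∀ j, (X.prod X).IsCyc i (z j)) ∧
      (∀ j, (p j).IsHomogeneous ((X.dim - i) * (W.betti X i - 1))) ∧
      q.IsHomogeneous ((X.dim - i) * W.betti X i) ∧
      ∀ W' : WeilCohomology.{u, v} ops, (∀ l ≤ i, W'.betti X l = W.betti X l) →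
        InvertsFamily W' X D i z p q :=
  universal_div hD₀ hi hB hD

end Pool.Agent.J4.H26.Attic.UniversalCycle
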